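import Mathlib

/-!
# Integers without prime factors in a set of primes with divergent sum of reciprocals
-/

set_option autoImplicit false

namespace Pool.Agent.V8H10.AH

open Finset Filter Topology

open Classical in
/-- finite sets of odd primes of the set with a small product -/
theorem small_prod (Q : Set ℕ) (hQ : ¬ Summable (fun q : ℕ => if q.Prime ∧ q ∈ Q then (1 : ℝ) / q else 0))
    (ε : ℝ) (hε : 0 < ε) : ∃ S : Finset ℕ, (∀ q ∈ S, q.Prime ∧ q ∈ Q ∧ 3 ≤ q) ∧
      ∏ q ∈ S, (1 - 1 / (q : ℝ)) ≤ ε := by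
  set f : ℕ → ℝ := fun q => if q.Prime ∧ q ∈ Q then (1 : ℝ) / q else 0 with hf
  have hf0 : ∀ q, 0 ≤ f q := by
    intro q
    simp only [hf]
    split_ifs <;> positivity
  have h1 : Tendsto (fun n => ∑ i ∈ range n, f i) atTop atTop :=
    (not_summable_iff_tendsto_nat_atTop_of_nonneg hf0).1 hQ
  obtain ⟨n, hn⟩ := (h1.eventually (eventually_ge_atTop (1 - Real.log ε))).exists
  refine ⟨(range n).filter (fun q => q.Prime ∧ q ∈ Q ∧ 3 ≤ q), ?_, ?_⟩
  · intro q hq
    rw [mem_filter] at hq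
    exact hq.2
  · set S := (range n).filter (fun q => q.Prime ∧ q ∈ Q ∧ 3 ≤ q) with hS
    have h2 : ∑ i ∈ range n, f i ≤ 1 / 2 + ∑ q ∈ S, 1 / (q : ℝ) := by
      have h3 : ∀ i ∈ range n, f i ≤ (if i = 2 then 1 / 2 else 0) + (if i.Prime ∧ i ∈ Q ∧ 3 ≤ i then 1 / (i : ℝ) else 0) := by
        intro i _
        simp only [hf]
        by_cases hi : i.Prime ∧ i ∈ Q
        · rw [if_pos hi]
          by_cases h2 : i = 2
          · subst h2
            rw [if_pos rfl, if_neg (by omega)]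
            norm_num
          · have h3 : 3 ≤ i := by
              have := hi.1.two_le
              omega
            rw [if_neg h2, if_pos ⟨hi.1, hi.2, h3⟩]
            linarith
        · have hi' : ¬ (i.Prime ∧ i ∈ Q ∧ 3 ≤ i) := fun h => hi ⟨h.1, h.2.1⟩
          rw [if_neg hi, if_neg hi']
          split_ifs <;> norm_num
      refine (sum_le_sum h3).trans ?_
      rw [sum_add_distrib]
      apply add_le_add
      · rw [← sum_filter]
        have h4 : (range n).filter (fun i => i = 2) ⊆ {2} := by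
          intro i hi
          rw [mem_filter] at hi
          rw [mem_singleton]
          exact hi.2
        refine (sum_le_sum_of_subset_of_nonneg h4 (fun _ _ _ => by norm_num)).trans ?_
        rw [sum_singleton]
      · rw [← sum_filter]
    have h3 : ∏ q ∈ S, (1 - 1 / (q : ℝ)) ≤ Real.exp (-(∑ q ∈ S, 1 / (q : ℝ))) := by
      rw [← sum_neg_distrib, Real.exp_sum]
      apply Finset.prod_le_prod
      · intro q hq
        rw [hS, mem_filter] at hq
        have h4 : (3 : ℝ) ≤ q := by exact_mod_cast hq.2.2.2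
        rw [sub_nonneg, div_le_one (by linarith)]
        linarith
      · intro q _
        have := Real.add_one_le_exp (-(1 / (q : ℝ)))
        linarith
    refine h3.trans ?_
    have h4 : -(∑ q ∈ S, 1 / (q : ℝ)) ≤ Real.log ε := by linarith
    calc Real.exp (-(∑ q ∈ S, 1 / (q : ℝ))) ≤ Real.exp (Real.log ε) := Real.exp_le_exp.2 h4
      _ = ε := Real.exp_log hε

/-- the totient of a product of different primes -/
theorem tot_prod (S : Finset ℕ) (hS : ∀ q ∈ S, q.Prime) :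
    (Nat.totient (∏ q ∈ S, q) : ℝ) = ((∏ q ∈ S, q : ℕ) : ℝ) * ∏ q ∈ S, (1 - 1 / (q : ℝ)) := by
  have h1 := Nat.totient_eq_mul_prod_factors (∏ q ∈ S, q)
  rw [Nat.primeFactors_prod hS] at h1
  have h3 : (((Nat.totient (∏ q ∈ S, q) : ℕ) : ℚ) : ℝ) = (((∏ q ∈ S, q : ℕ) : ℚ) *
      ∏ p ∈ S, (1 - ((p : ℚ))⁻¹) : ℚ) := by rw [h1]
  push_cast at h3
  push_cast
  rw [h3]
  congr 1
  apply prod_congr rfl
  intro p _
  rw [one_div]

open Classical in
/-- the `m` without a prime factor `q < m / 2` in the set -/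
theorem nongood (Q : Set ℕ)
    (hQ : ¬ Summable (fun q : ℕ => if q.Prime ∧ q ∈ Q then (1 : ℝ) / q else 0))
    (ε : ℝ) (hε : 0 < ε) : ∀ᶠ y : ℕ in atTop,
      (#((Icc 1 y).filter (fun m => ¬ ∃ q : ℕ, q.Prime ∧ q ∈ Q ∧ 3 ≤ q ∧ q ∣ m ∧ 2 * q < m)) : ℝ) ≤ ε * y := by
  obtain ⟨S, hS, hprod⟩ := small_prod Q hQ (ε / 2) (by positivity)
  set P := ∏ q ∈ S, q with hP
  have hPp : 0 < P := prod_pos fun q hq => (hS q hq).1.pos
  have hP0 : (0 : ℝ) < P := by exact_mod_cast hPp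
  have h1 := tendsto_natCast_atTop_atTop (R := ℝ) |>.eventually
    (eventually_ge_atTop ((Nat.totient P + 2 * P + 1 : ℝ) / (ε / 2)))
  filter_upwards [h1] with y hy
  rw [div_le_iff₀ (by positivity)] at hy
  have h2 : (Icc 1 y).filter (fun m => ¬ ∃ q : ℕ, q.Prime ∧ q ∈ Q ∧ 3 ≤ q ∧ q ∣ m ∧ 2 * q < m) ⊆
      ((Ico 1 (1 + y)).filter (fun m => Nat.Coprime P m)) ∪ Icc 1 (2 * P) := by
    intro m hm
    rw [mem_filter, mem_Icc] at hm
    obtain ⟨⟨hm1, hm2⟩, hm3⟩ := hm
    rw [mem_union, mem_filter, mem_Ico, mem_Icc]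
    by_cases h3 : Nat.Coprime P m
    · exact Or.inl ⟨⟨hm1, by omega⟩, h3⟩
    · right
      refine ⟨hm1, ?_⟩
      by_contra h4
      push Not at h4
      apply hm3
      obtain ⟨q, hq, hqP, hqm⟩ := Nat.Prime.not_coprime_iff_dvd.1 h3
      rw [hP, Prime.dvd_finsetProd_iff hq.prime] at hqP
      obtain ⟨r, hr, hqr⟩ := hqP
      have h5 := (Nat.prime_dvd_prime_iff_eq hq (hS r hr).1).1 hqr
      subst h5
      have h6 : q ≤ P := Nat.le_of_dvd hPp (dvd_prod_of_mem _ hr)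
      exact ⟨q, hq, (hS q hr).2.1, (hS q hr).2.2, hqm, by omega⟩
  have h3 : #((Icc 1 y).filter (fun m => ¬ ∃ q : ℕ, q.Prime ∧ q ∈ Q ∧ 3 ≤ q ∧ q ∣ m ∧ 2 * q < m)) ≤
      Nat.totient P * (y / P + 1) + 2 * P := by
    refine (card_le_card h2).trans ((card_union_le _ _).trans ?_)
    apply Nat.add_le_add
    · exact Nat.Ico_filter_coprime_le 1 y hPp.ne'
    · rw [Nat.card_Icc]
      omega
  have h4 : (#((Icc 1 y).filter (fun m => ¬ ∃ q : ℕ, q.Prime ∧ q ∈ Q ∧ 3 ≤ q ∧ q ∣ m ∧ 2 * q < m)) : ℝ) ≤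
      Nat.totient P * ((y / P : ℕ) + 1) + 2 * P := by exact_mod_cast h3
  refine h4.trans ?_
  have h5 : ((y / P : ℕ) : ℝ) ≤ y / P := Nat.cast_div_le
  have h6 := tot_prod S fun q hq => (hS q hq).1
  rw [← hP] at h6
  have h7 : (Nat.totient P : ℝ) * ((y / P : ℕ) : ℝ) ≤ ε / 2 * y := by
    calc (Nat.totient P : ℝ) * ((y / P : ℕ) : ℝ) ≤ Nat.totient P * (y / P) := by
          apply mul_le_mul_of_nonneg_left h5 (by positivity)
      _ = (∏ q ∈ S, (1 - 1 / (q : ℝ))) * y := by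
          rw [h6]
          field_simp
      _ ≤ ε / 2 * y := mul_le_mul_of_nonneg_right hprod (by positivity)
  have h8 : (0 : ℝ) ≤ y := by positivity
  linarith

end Pool.Agent.V8H10.AH
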