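import Mathlib
import Pool.Agent.V8H10.AS.Fin
import Pool.Agent.V8H10.AH.Dens

/-!
# The families of Ankeny, Chowla, Hasse and Lang with a general constant term, in short segments
-/

set_option autoImplicit false

namespace Pool.Agent.V8H10.AH

open Finset Filter Topology
open Pool.Agent.V8H34.TR
open Pool.Agent.V8H10.AS (final5)

/-- the partial products of the constant -/
noncomputable def prodC (c z : ℕ) : ℝ :=
  ∏ p ∈ (Icc 3 z).filter Nat.Prime, (1 - (jacobiSym (-(c : ℤ)) p : ℝ) / ((p : ℝ) - 1))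

open Classical in
/-- `m = 2 q n`, `q ∈ Q` prime, `n > 1` -/
noncomputable def cA (Q : Set ℕ) (c y : ℕ) : ℕ :=
  #((Icc 1 y).filter (fun m : ℕ =>
    (∃ q n : ℕ, q.Prime ∧ q ∈ Q ∧ 1 < n ∧ m = 2 * q * n) ∧ (m ^ 2 + c).Prime))

open Classical in
/-- `m = (2 n + 1) q`, `q ∈ Q` prime, `n ≥ 1` -/
noncomputable def cB (Q : Set ℕ) (c y : ℕ) : ℕ :=
  #((Icc 1 y).filter (fun m : ℕ =>
    (∃ q n : ℕ, q.Prime ∧ q ∈ Q ∧ 1 ≤ n ∧ m = (2 * n + 1) * q) ∧ (m ^ 2 + c).Prime))

open Classical in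
/-- the `m` outside of the families -/
noncomputable def Ng (Q : Set ℕ) (y : ℕ) : Finset ℕ :=
  (Icc 1 y).filter (fun m => ¬ ∃ q : ℕ, q.Prime ∧ q ∈ Q ∧ 3 ≤ q ∧ q ∣ m ∧ 2 * q < m)

/-- the number of the primes outside of the families -/
noncomputable def cN (Q : Set ℕ) (c y : ℕ) : ℕ := #((Ng Q y).filter (fun m : ℕ => (m ^ 2 + c).Prime))

theorem jac_four (c : ℕ) {p : ℕ} (hp : p.Prime) (h3 : 3 ≤ p) :
    jacobiSym (-(16 * (c : ℤ))) p = jacobiSym (-(c : ℤ)) p := by
  have h1 : -(16 * (c : ℤ)) = 4 ^ 2 * (-(c : ℤ)) := by ring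
  have h2 : Nat.Coprime 4 p := by
    rw [Nat.coprime_comm, Nat.Prime.coprime_iff_not_dvd hp]
    intro h
    have h4 : p ∣ 2 ^ 2 := h
    have h5 := hp.dvd_of_dvd_pow h4
    have := Nat.le_of_dvd (by norm_num) h5
    omega
  rw [h1, jacobiSym.mul_left, jacobiSym.sq_one' (by exact_mod_cast h2), one_mul]

theorem pC_A (c z : ℕ) : pC 4 0 c z = prodC c z := by
  unfold pC prodC
  have h1 : (Icc 3 z).filter (fun p : ℕ => p.Prime ∧ ¬ (p : ℤ) ∣ 4) = (Icc 3 z).filter Nat.Prime := by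
    apply filter_congr
    intro p hp
    rw [mem_Icc] at hp
    constructor
    · exact fun h => h.1
    · intro h
      refine ⟨h, fun hd => ?_⟩
      have h2 : p ∣ 2 ^ 2 := by exact_mod_cast hd
      have h5 := h.dvd_of_dvd_pow h2
      have := Nat.le_of_dvd (by norm_num) h5
      omega
  rw [h1]
  apply prod_congr rfl
  intro p hp
  rw [mem_filter, mem_Icc] at hp
  have h2 : (0 : ℤ) ^ 2 - 4 * 4 * (c : ℤ) = -(16 * (c : ℤ)) := by ring
  rw [h2, jac_four c hp.2 hp.1.1]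

theorem pC_B (c z : ℕ) : pC 4 4 ((c + 1 : ℕ) : ℤ) z = prodC c z := by
  rw [← pC_A]
  unfold pC
  apply prod_congr rfl
  intro p _
  have h2 : (4 : ℤ) ^ 2 - 4 * 4 * ((c + 1 : ℕ) : ℤ) = (0 : ℤ) ^ 2 - 4 * 4 * (c : ℤ) := by
    push_cast
    ring
  rw [h2]

theorem gP_four (b : ℤ) (hb : b = 0 ∨ b = 4) : gP 4 b = 1 := by
  unfold gP
  have h1 : Int.gcd 4 b = 4 := by
    rcases hb with rfl | rfl <;> decide
  rw [h1]
  apply prod_eq_one
  intro p hp
  rw [mem_filter, Nat.mem_primeFactors] at hp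
  exfalso
  have h2 : p ∣ 2 ^ 2 := hp.1.2.1
  have h5 := hp.1.1.dvd_of_dvd_pow h2
  have := Nat.le_of_dvd (by norm_num) h5
  omega

theorem epsi_four (b : ℤ) (hb : b = 0 ∨ b = 4) : epsi 4 b = 2 := by
  unfold epsi
  rw [if_pos]
  rcases hb with rfl | rfl <;> decide

theorem odd_unit {c d : ℤ} (hc : ¬ (2 : ℤ) ∣ c) (h4 : d ∣ 4) (hd : d ∣ c) : IsUnit d := by
  have h1 : IsCoprime (4 : ℤ) c := by
    have h2 : IsCoprime (2 : ℤ) c := (Int.prime_two.coprime_iff_not_dvd).2 hc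
    have h3 : (4 : ℤ) = 2 ^ 2 := by norm_num
    rw [h3]
    exact h2.pow_left
  exact h1.isUnit_of_dvd' h4 hd

theorem adm_A {c : ℕ} (hc : 1 ≤ c) (ho : Odd c) : Adm 4 0 c := by
  have h2 : ¬ (2 : ℤ) ∣ c := by
    intro h
    have h3 : 2 ∣ c := by exact_mod_cast h
    rw [← even_iff_two_dvd] at h3
    exact (Nat.not_even_iff_odd.2 ho) h3
  refine ⟨by norm_num, fun d hd _ hdc => odd_unit h2 hd hdc, fun h => h2 h.2, ?_⟩
  rintro ⟨r, hr⟩
  have h3 := mul_self_nonneg r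
  have h4 : (1 : ℤ) ≤ c := by exact_mod_cast hc
  nlinarith

theorem adm_B {c : ℕ} (hc : 1 ≤ c) (he : Even c) : Adm 4 4 ((c + 1 : ℕ) : ℤ) := by
  have h2 : ¬ (2 : ℤ) ∣ ((c + 1 : ℕ) : ℤ) := by
    intro h
    have h3 : 2 ∣ c + 1 := by exact_mod_cast h
    have h4 := even_iff_two_dvd.1 he
    omega
  refine ⟨by norm_num, fun d hd _ hdc => odd_unit h2 hd hdc, fun h => h2 h.2, ?_⟩
  rintro ⟨r, hr⟩
  have h3 := mul_self_nonneg r
  have h4 : (1 : ℤ) ≤ c := by exact_mod_cast hc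
  push_cast at hr
  nlinarith

/-- the first family and all even `m` -/
theorem cA_eq (Q : Set ℕ) {c y : ℕ} :
    (cA Q c y : ℝ) ≤ cntP 4 0 c (y / 2) ∧ (cntP 4 0 c (y / 2) : ℝ) ≤ cA Q c y + cN Q c y := by
  classical
  have e1 : cntP 4 0 c (y / 2) = #((Icc 1 y).filter (fun m : ℕ => Even m ∧ (m ^ 2 + c).Prime)) := by
    unfold cntP
    apply card_bij (fun m _ => 2 * m)
    · intro m hm
      rw [mem_filter, mem_Icc] at hm
      rw [mem_filter, mem_Icc]
      refine ⟨by omega, even_two_mul m, ?_⟩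
      have h1 : ((4 : ℤ) * (m : ℤ) ^ 2 + 0 * (m : ℤ) + (c : ℤ)).toNat = (2 * m) ^ 2 + c := by
        have h2 : (4 : ℤ) * (m : ℤ) ^ 2 + 0 * (m : ℤ) + (c : ℤ) = (((2 * m) ^ 2 + c : ℕ) : ℤ) := by
          push_cast
          ring
        rw [h2, Int.toNat_natCast]
      rw [h1] at hm
      exact hm.2
    · intro m _ m' _ h
      omega
    · intro m hm
      rw [mem_filter, mem_Icc] at hm
      obtain ⟨k, hk⟩ := hm.2.1
      refine ⟨k, ?_, by omega⟩
      rw [mem_filter, mem_Icc]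
      refine ⟨by omega, ?_⟩
      have h1 : ((4 : ℤ) * (k : ℤ) ^ 2 + 0 * (k : ℤ) + (c : ℤ)).toNat = m ^ 2 + c := by
        have h2 : (4 : ℤ) * (k : ℤ) ^ 2 + 0 * (k : ℤ) + (c : ℤ) = ((m ^ 2 + c : ℕ) : ℤ) := by
          rw [hk]
          push_cast
          ring
        rw [h2, Int.toNat_natCast]
      rw [h1]
      exact hm.2.2
  rw [e1]
  constructor
  · have h1 : cA Q c y ≤ #((Icc 1 y).filter (fun m : ℕ => Even m ∧ (m ^ 2 + c).Prime)) := by
      unfold cA
      apply card_le_card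
      intro m hm
      rw [mem_filter] at hm ⊢
      obtain ⟨h1, ⟨q, n, -, -, -, h2⟩, h3⟩ := hm
      refine ⟨h1, ?_, h3⟩
      rw [h2, mul_assoc]
      exact even_two_mul _
    exact_mod_cast h1
  · have h1 : #((Icc 1 y).filter (fun m : ℕ => Even m ∧ (m ^ 2 + c).Prime)) ≤ cA Q c y + cN Q c y := by
      unfold cA cN
      refine (card_le_card ?_).trans (card_union_le _ _)
      intro m hm
      rw [mem_filter] at hm
      obtain ⟨hm1, hm2, hm3⟩ := hm
      rw [mem_union, mem_filter, mem_filter]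
      by_cases h4 : ∃ q : ℕ, q.Prime ∧ q ∈ Q ∧ 3 ≤ q ∧ q ∣ m ∧ 2 * q < m
      · left
        refine ⟨hm1, ?_, hm3⟩
        obtain ⟨q, hq, hqQ, hq3, ⟨k, hk⟩, hq2⟩ := h4
        have h5 : Even k := by
          rw [hk, Nat.even_mul] at hm2
          rcases hm2 with h6 | h6
          · exfalso
            have := (hq.even_iff).1 h6
            omega
          · exact h6
        obtain ⟨n, hn⟩ := h5
        refine ⟨q, n, hq, hqQ, ?_, ?_⟩
        · by_contra h6
          push Not at h6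
          have h7 : k ≤ 2 := by omega
          have h8 : q * k ≤ q * 2 := Nat.mul_le_mul_left _ h7
          omega
        · rw [hk, hn]
          ring
      · right
        refine ⟨?_, hm3⟩
        unfold Ng
        rw [mem_filter]
        exact ⟨hm1, h4⟩
    exact_mod_cast h1

/-- the second family and all odd `m ≥ 3` -/
theorem cB_eq (Q : Set ℕ) {c y : ℕ} (he : Even c) :
    (cB Q c y : ℝ) ≤ cntP 4 4 ((c + 1 : ℕ) : ℤ) ((y - 1) / 2) + 1 ∧
      (cntP 4 4 ((c + 1 : ℕ) : ℤ) ((y - 1) / 2) : ℝ) ≤ cB Q c y + cN Q c y := by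
  classical
  have e1 : cntP 4 4 ((c + 1 : ℕ) : ℤ) ((y - 1) / 2) =
      #((Icc 1 y).filter (fun m : ℕ => (Odd m ∧ 3 ≤ m) ∧ (m ^ 2 + c).Prime)) := by
    unfold cntP
    have key : ∀ m : ℕ, ((4 : ℤ) * (m : ℤ) ^ 2 + 4 * (m : ℤ) + ((c + 1 : ℕ) : ℤ)).toNat =
        (2 * m + 1) ^ 2 + c := by
      intro m
      have h2 : (4 : ℤ) * (m : ℤ) ^ 2 + 4 * (m : ℤ) + ((c + 1 : ℕ) : ℤ) =
          (((2 * m + 1) ^ 2 + c : ℕ) : ℤ) := by
        push_cast
        ring
      rw [h2, Int.toNat_natCast]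
    apply card_bij (fun m _ => 2 * m + 1)
    · intro m hm
      rw [mem_filter, mem_Icc, key] at hm
      rw [mem_filter, mem_Icc]
      exact ⟨by omega, ⟨odd_two_mul_add_one m, by omega⟩, hm.2⟩
    · intro m _ m' _ h
      omega
    · intro m hm
      rw [mem_filter, mem_Icc] at hm
      obtain ⟨k, hk⟩ := hm.2.1.1
      refine ⟨k, ?_, by omega⟩
      rw [mem_filter, mem_Icc, key, ← hk]
      exact ⟨by omega, hm.2.2⟩
  rw [e1]
  constructor
  · have h1 : cB Q c y ≤ #((Icc 1 y).filter (fun m : ℕ => (Odd m ∧ 3 ≤ m) ∧ (m ^ 2 + c).Prime)) + 1 := by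
      unfold cB
      apply Nat.le_add_right_of_le
      apply card_le_card
      intro m hm
      rw [mem_filter] at hm ⊢
      obtain ⟨h1, ⟨q, n, hq, -, hn, h2⟩, h3⟩ := hm
      refine ⟨h1, ⟨?_, ?_⟩, h3⟩
      · by_contra h4
        rw [Nat.not_odd_iff_even] at h4
        have h5 : Even (m ^ 2 + c) := (h4.pow_of_ne_zero (by norm_num)).add he
        have h6 := (h3.even_iff).1 h5
        rw [mem_Icc] at h1
        obtain ⟨k, hk⟩ := h4
        have h7 : 2 ≤ m := by omega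
        have h8 : 2 * 2 ≤ m * m := Nat.mul_le_mul h7 h7
        nlinarith
      · have h4 := hq.two_le
        have h5 : 3 * 1 ≤ (2 * n + 1) * q := Nat.mul_le_mul (by omega) (by omega)
        omega
    exact_mod_cast h1
  · have h1 : #((Icc 1 y).filter (fun m : ℕ => (Odd m ∧ 3 ≤ m) ∧ (m ^ 2 + c).Prime)) ≤
        cB Q c y + cN Q c y := by
      unfold cB cN
      refine (card_le_card ?_).trans (card_union_le _ _)
      intro m hm
      rw [mem_filter] at hm
      obtain ⟨hm1, hm2, hm3⟩ := hm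
      rw [mem_union, mem_filter, mem_filter]
      by_cases h4 : ∃ q : ℕ, q.Prime ∧ q ∈ Q ∧ 3 ≤ q ∧ q ∣ m ∧ 2 * q < m
      · left
        refine ⟨hm1, ?_, hm3⟩
        obtain ⟨q, hq, hqQ, hq3, ⟨k, hk⟩, hq2⟩ := h4
        have h5 : Odd k := by
          have h6 := hm2.1
          rw [hk, Nat.odd_mul] at h6
          exact h6.2
        obtain ⟨n, hn⟩ := h5
        refine ⟨q, n, hq, hqQ, ?_, ?_⟩
        · by_contra h6
          push Not at h6
          have h7 : k ≤ 2 := by omega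
          have h8 : q * k ≤ q * 2 := Nat.mul_le_mul_left _ h7
          omega
        · rw [hk, hn]
          ring
      · right
        refine ⟨?_, hm3⟩
        unfold Ng
        rw [mem_filter]
        exact ⟨hm1, h4⟩
    exact_mod_cast h1

/-- the first moment outside of the families -/
theorem cN_sum (Q : Set ℕ) {X y : ℕ} (hy : y ^ 2 ≤ X) :
    (∑ c ∈ Icc 1 X, (cN Q c y : ℝ)) ≤ #(Ng Q y) * Nat.primeCounting (2 * X) := by
  classical
  have h1 : ∑ c ∈ Icc 1 X, cN Q c y = ∑ m ∈ Ng Q y, #((Icc 1 X).filter (fun c => (m ^ 2 + c).Prime)) := by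
    unfold cN
    simp_rw [card_filter]
    exact sum_comm
  have h2 : ∀ m ∈ Ng Q y, #((Icc 1 X).filter (fun c => (m ^ 2 + c).Prime)) ≤ Nat.primeCounting (2 * X) := by
    intro m hm
    unfold Ng at hm
    rw [mem_filter, mem_Icc] at hm
    have h3 : m ^ 2 ≤ y ^ 2 := Nat.pow_le_pow_left hm.1.2 2
    rw [Nat.primeCounting, Nat.primeCounting', Nat.count_eq_card_filter_range]
    apply card_le_card_of_injOn (fun c => m ^ 2 + c)
    · intro c hc
      rw [mem_coe, mem_filter, mem_Icc] at hc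
      simp only [mem_coe, mem_filter, mem_range]
      exact ⟨by omega, hc.2⟩
    · intro c _ c' _ h
      simp only at h
      omega
  have h3 : ∑ c ∈ Icc 1 X, cN Q c y ≤ #(Ng Q y) * Nat.primeCounting (2 * X) := by
    rw [h1]
    refine (sum_le_sum h2).trans ?_
    rw [sum_const, smul_eq_mul]
  exact_mod_cast h3

open Classical in
/-- **Main theorem.** -/
theorem main (Q : Set ℕ)
    (hQ : ¬ Summable (fun q : ℕ => if q.Prime ∧ q ∈ Q then (1 : ℝ) / q else 0))
    (θ : ℝ) (hθ : 1 / 6 < θ) (δ : ℝ) (hδ : 0 < δ) (hδ1 : δ ≤ 1) :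
    ∀ᶠ X : ℕ in atTop, ∀ y : ℕ, (X : ℝ) ^ θ ≤ y → y ^ 2 ≤ X →
      ∃ Bad ⊆ Icc 1 X, (#Bad : ℝ) ≤ δ * X ∧ ∀ c ∈ Icc 1 X, c ∉ Bad →
        ∃ C : ℝ, (0 < C ∧ Tendsto (fun z => prodC c z) atTop (𝓝 C)) ∧
          (Odd c → |(cA Q c y : ℝ) - C * (y / Real.log X)| ≤ δ * (C * (y / Real.log X))) ∧
          (Even c → |(cB Q c y : ℝ) - C * (y / Real.log X)| ≤ δ * (C * (y / Real.log X))) := by
  set θ' : ℝ := (θ + 1 / 6) / 2 with hθ'
  have hθ'1 : 1 / 6 < θ' := by rw [hθ']; linarith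
  have hθ'2 : 0 < θ - θ' := by rw [hθ']; linarith
  have hθ0 : 0 < θ := by linarith
  obtain ⟨τA, hτA, hA⟩ := final5 4 (by norm_num) 0 θ' hθ'1 (δ / 8) (by positivity)
  obtain ⟨τB, hτB, hB⟩ := final5 4 (by norm_num) 4 θ' hθ'1 (δ / 8) (by positivity)
  set τ : ℝ := min τA τB with hτ
  have hτ0 : 0 < τ := lt_min hτA hτB
  have hN := nongood Q hQ (δ ^ 2 * τ / 512) (by positivity)
  obtain ⟨Y0, hY0⟩ := eventually_atTop.1 hN
  have hπ := (tendsto_id.const_mul_atTop' (by norm_num : 0 < 2)).eventually ev_pi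
  filter_upwards [hA, hB, hπ, eventually_ge_atTop 2, ev_rpow_nat (Y0 : ℝ) hθ0,
    ev_rpow_nat 4 hθ'2, ev_rpow_nat (1 : ℝ) hθ0, ev_rpow_nat (64 / δ) hθ0,
    ev_log_rpow 1 (by positivity : 0 < θ) (by positivity : 0 < δ * τ / 64),
    (tendsto_natCast_atTop_atTop (R := ℝ)).eventually (eventually_ge_atTop (8 / δ))]
    with X hA hB hπ hX2 hXY hX4 hX1 hX64 hXL hX8 y hy1 hy2
  simp only [id] at hπ
  have hX0 : (0 : ℝ) < X := by
    have : 0 < X := by omega
    exact_mod_cast this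
  have hX1R : (1 : ℝ) ≤ X := by exact_mod_cast (by omega : 1 ≤ X)
  have hlogX : 0 < Real.log X := Real.log_pos (by exact_mod_cast (by omega : 1 < X))
  have hy64 : 64 / δ ≤ y := hX64.trans hy1
  have h64 : 64 ≤ 64 / δ := by
    rw [le_div_iff₀ hδ]
    linarith
  have hy64' : (64 : ℝ) ≤ y := h64.trans hy64
  have hy64n : 64 ≤ y := by exact_mod_cast hy64'
  have hyX : (X : ℝ) ^ θ' ≤ y / 4 := by
    have e1 : (X : ℝ) ^ θ = (X : ℝ) ^ (θ - θ') * (X : ℝ) ^ θ' := by
      rw [← Real.rpow_add hX0]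
      congr 1
      ring
    have e2 : 0 < (X : ℝ) ^ θ' := by positivity
    have e3 : 4 * (X : ℝ) ^ θ' ≤ (X : ℝ) ^ (θ - θ') * (X : ℝ) ^ θ' := mul_le_mul_of_nonneg_right hX4 e2.le
    rw [← e1] at e3
    linarith
  set yA := y / 2 with hyA
  set yB := (y - 1) / 2 with hyB
  have hyA1 : (y : ℝ) / 2 - 1 ≤ yA := by
    have : y ≤ 2 * yA + 1 := by omega
    have h : (y : ℝ) ≤ 2 * yA + 1 := by exact_mod_cast this
    linarith
  have hyA2 : (yA : ℝ) ≤ y / 2 := by
    have : 2 * yA ≤ y := by omega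
    have h : 2 * (yA : ℝ) ≤ y := by exact_mod_cast this
    linarith
  have hyB1 : (y : ℝ) / 2 - 1 ≤ yB := by
    have : y ≤ 2 * yB + 2 := by omega
    have h : (y : ℝ) ≤ 2 * yB + 2 := by exact_mod_cast this
    linarith
  have hyB2 : (yB : ℝ) ≤ y / 2 := by
    have : 2 * yB ≤ y := by omega
    have h : 2 * (yB : ℝ) ≤ y := by exact_mod_cast this
    linarith
  have hsqA : yA ^ 2 ≤ X := by
    have : yA ≤ y := by omega
    exact (Nat.pow_le_pow_left this 2).trans hy2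
  have hsqB : yB ^ 2 ≤ X := by
    have : yB ≤ y := by omega
    exact (Nat.pow_le_pow_left this 2).trans hy2
  obtain ⟨BA, hBA, hBAc, hGA⟩ := hA yA (by linarith) hsqA
  obtain ⟨BB, hBB, hBBc, hGB⟩ := hB yB (by linarith) hsqB
  set Y : ℝ := (y : ℝ) / Real.log X with hY
  have hY0' : 0 < Y := by positivity
  have hNy := hY0 y (by
    have : (Y0 : ℝ) ≤ y := hXY.trans hy1
    exact_mod_cast this)
  have hNc : (#(Ng Q y) : ℝ) ≤ δ ^ 2 * τ / 512 * y := hNy
  -- the primes up to `2 X`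
  have hπX : (Nat.primeCounting (2 * X) : ℝ) ≤ 4 * X / Real.log X := by
    refine hπ.trans ?_
    push_cast
    have h1 : Real.log X ≤ Real.log (2 * X) := Real.log_le_log hX0 (by linarith)
    calc 2 * (2 * (X : ℝ)) / Real.log (2 * X) ≤ 2 * (2 * (X : ℝ)) / Real.log X :=
          div_le_div_of_nonneg_left (by positivity) hlogX h1
      _ = 4 * X / Real.log X := by ring
  have hsumN : (∑ c ∈ Icc 1 X, (cN Q c y : ℝ)) ≤ δ ^ 2 * τ / 128 * (X * Y) := by
    refine (cN_sum Q hy2).trans ?_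
    calc (#(Ng Q y) : ℝ) * Nat.primeCounting (2 * X) ≤
        (δ ^ 2 * τ / 512 * y) * (4 * X / Real.log X) := by
          apply mul_le_mul hNc hπX (by positivity) (by positivity)
      _ = δ ^ 2 * τ / 128 * (X * Y) := by
          rw [hY]
          ring
  set BN : Finset ℕ := (Icc 1 X).filter (fun c => δ * τ / 16 * Y < (cN Q c y : ℝ)) with hBN
  have hBNc : (#BN : ℝ) ≤ δ / 8 * X := by
    have h1 : (#BN : ℝ) * (δ * τ / 16 * Y) ≤ ∑ c ∈ Icc 1 X, (cN Q c y : ℝ) := by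
      calc (#BN : ℝ) * (δ * τ / 16 * Y) = ∑ c ∈ BN, δ * τ / 16 * Y := by rw [sum_const, nsmul_eq_mul]
        _ ≤ ∑ c ∈ BN, (cN Q c y : ℝ) := by
          apply sum_le_sum
          intro c hc
          rw [hBN, mem_filter] at hc
          exact hc.2.le
        _ ≤ ∑ c ∈ Icc 1 X, (cN Q c y : ℝ) :=
          sum_le_sum_of_subset_of_nonneg (filter_subset _ _) fun c _ _ => by positivity
    have h2 := h1.trans hsumN
    have h3 : δ ^ 2 * τ / 128 * (X * Y) = (δ / 8 * X) * (δ * τ / 16 * Y) := by ring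
    rw [h3] at h2
    exact le_of_mul_le_mul_right h2 (by positivity)
  set SA : Finset ℕ := (Icc 1 X).filter (fun c => ((c : ℕ) : ℤ) ∈ BA) with hSA
  set SB : Finset ℕ := (Icc 1 X).filter (fun c => ((c + 1 : ℕ) : ℤ) ∈ BB) with hSB
  have hSAc : #SA ≤ #BA := by
    apply card_le_card_of_injOn (fun c : ℕ => (c : ℤ))
    · intro c hc
      rw [mem_coe, hSA, mem_filter] at hc
      exact hc.2
    · intro c _ c' _ h
      simp only at h
      omega
  have hSBc : #SB ≤ #BB := by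
    apply card_le_card_of_injOn (fun c : ℕ => ((c + 1 : ℕ) : ℤ))
    · intro c hc
      rw [mem_coe, hSB, mem_filter] at hc
      exact hc.2
    · intro c _ c' _ h
      simp only at h
      omega
  refine ⟨BN ∪ SA ∪ SB ∪ {X}, ?_, ?_, ?_⟩
  · rw [union_subset_iff, union_subset_iff, union_subset_iff]
    refine ⟨⟨⟨filter_subset _ _, filter_subset _ _⟩, filter_subset _ _⟩, ?_⟩
    rw [singleton_subset_iff, mem_Icc]
    omega
  · have h1 : (#(BN ∪ SA ∪ SB ∪ {X}) : ℝ) ≤ (#(BN ∪ SA ∪ SB) : ℝ) + #({X} : Finset ℕ) := by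
      exact_mod_cast card_union_le _ _
    have h2 : (#(BN ∪ SA ∪ SB) : ℝ) ≤ (#(BN ∪ SA) : ℝ) + #SB := by exact_mod_cast card_union_le _ _
    have h3 : (#(BN ∪ SA) : ℝ) ≤ (#BN : ℝ) + #SA := by exact_mod_cast card_union_le _ _
    have h4 : (#SA : ℝ) ≤ #BA := by exact_mod_cast hSAc
    have h5 : (#SB : ℝ) ≤ #BB := by exact_mod_cast hSBc
    rw [card_singleton, Nat.cast_one] at h1
    have h6 : 1 ≤ δ / 8 * X := by
      rw [div_le_iff₀ hδ] at hX8
      linarith
    have h7 : 0 ≤ δ * X := by positivity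
    linarith
  · intro c hc hcB
    rw [mem_union, mem_union, mem_union, not_or, not_or, not_or, hBN, hSA, hSB, mem_filter, mem_filter,
      mem_filter, mem_singleton] at hcB
    obtain ⟨⟨⟨hc1, hc2⟩, hc3⟩, hc4⟩ := hcB
    have hcI := hc
    rw [mem_Icc] at hcI
    have hcN : (cN Q c y : ℝ) ≤ δ * τ / 16 * Y := by
      by_contra h
      exact hc1 ⟨hc, not_le.1 h⟩
    have hcA : ((c : ℕ) : ℤ) ∉ BA := fun h => hc2 ⟨hc, h⟩
    have hcB : ((c + 1 : ℕ) : ℤ) ∉ BB := fun h => hc3 ⟨hc, h⟩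
    have hone : 1 ≤ δ * τ / 64 * Y := by
      rw [pow_one] at hXL
      rw [hY, mul_div_assoc', le_div_iff₀ hlogX, one_mul]
      refine hXL.trans ?_
      exact mul_le_mul_of_nonneg_left hy1 (by positivity)
    -- common computation
    have comm : ∀ (G P N' yy : ℝ), τ ≤ G → (y : ℝ) / 2 - 1 ≤ yy → yy ≤ y / 2 →
        |P - G * (yy / Real.log X)| ≤ δ / 8 * (G * (yy / Real.log X)) →
        N' ≤ P + 1 → P ≤ N' + δ * τ / 16 * Y →
        |N' - G / 2 * Y| ≤ δ * (G / 2 * Y) := by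
      intro G P N' yy hG hyy1 hyy2 hP hN1 hN2
      have hG0 : 0 < G := lt_of_lt_of_le hτ0 hG
      have e1 : G * (yy / Real.log X) ≤ G / 2 * Y := by
        calc G * (yy / Real.log X) ≤ G * ((y / 2) / Real.log X) := by gcongr
          _ = G / 2 * Y := by rw [hY]; ring
      have e2 : G / 2 * Y - δ / 16 * (G / 2 * Y) ≤ G * (yy / Real.log X) := by
        have e3 : 1 ≤ δ / 32 * (y : ℝ) := by
          rw [div_le_iff₀ hδ] at hy64
          linarith
        calc G / 2 * Y - δ / 16 * (G / 2 * Y) = G * ((y / 2 - δ / 32 * y) / Real.log X) := by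
              rw [hY]
              ring
          _ ≤ G * (yy / Real.log X) := by
              apply mul_le_mul_of_nonneg_left _ hG0.le
              apply div_le_div_of_nonneg_right _ hlogX.le
              linarith
      have e3 : δ / 8 * (G * (yy / Real.log X)) ≤ δ / 8 * (G / 2 * Y) :=
        mul_le_mul_of_nonneg_left e1 (by positivity)
      have e4 : δ * τ / 16 * Y ≤ δ / 8 * (G / 2 * Y) := by
        calc δ * τ / 16 * Y ≤ δ * G / 16 * Y := by gcongr
          _ = δ / 8 * (G / 2 * Y) := by ring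
      have e5 : 1 ≤ δ / 32 * (G / 2 * Y) := by
        refine hone.trans ?_
        calc δ * τ / 64 * Y ≤ δ * G / 64 * Y := by gcongr
          _ = δ / 32 * (G / 2 * Y) := by ring
      have e6 : 0 ≤ δ * (G / 2 * Y) := by positivity
      rw [abs_le] at hP ⊢
      constructor
      · linarith [hP.1]
      · linarith [hP.2]
    rcases Nat.even_or_odd c with he | ho
    · have hcI' : ((c + 1 : ℕ) : ℤ) ∈ Icc 1 (X : ℤ) := by
        rw [mem_Icc]
        constructor
        · push_cast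
          omega
        · have : c + 1 ≤ X := by omega
          exact_mod_cast this
      obtain ⟨C, ⟨hC, hlim⟩, hτC, h1⟩ := hGB _ hcI' hcB (adm_B hcI.1 he)
      refine ⟨C, ⟨hC, ?_⟩, ?_, ?_⟩
      · refine hlim.congr fun z => ?_
        exact pC_B c z
      · intro ho
        exact absurd ho (Nat.not_odd_iff_even.2 he)
      · intro _
        have hG : epsi 4 4 * C * gP 4 4 = 2 * C := by
          rw [epsi_four 4 (Or.inr rfl), gP_four 4 (Or.inr rfl), mul_one]
        have hG' : epsi ((4 : ℕ) : ℤ) 4 * C * gP ((4 : ℕ) : ℤ) 4 = 2 * C := hG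
        rw [hG'] at h1 hτC
        obtain ⟨g1, g2⟩ := cB_eq Q (c := c) (y := y) he
        have h2 := comm (2 * C) (cntP 4 4 ((c + 1 : ℕ) : ℤ) yB) (cB Q c y) yB
          ((min_le_right _ _).trans hτC) hyB1 hyB2 h1 g1 (by linarith)
        have h3 : 2 * C / 2 = C := by ring
        rwa [h3] at h2
    · have hcI' : ((c : ℕ) : ℤ) ∈ Icc 1 (X : ℤ) := by
        rw [mem_Icc]
        omega
      obtain ⟨C, ⟨hC, hlim⟩, hτC, h1⟩ := hGA _ hcI' hcA (adm_A hcI.1 ho)
      refine ⟨C, ⟨hC, ?_⟩, ?_, ?_⟩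
      · refine hlim.congr fun z => ?_
        exact pC_A c z
      · intro _
        have hG : epsi 4 0 * C * gP 4 0 = 2 * C := by
          rw [epsi_four 0 (Or.inl rfl), gP_four 0 (Or.inl rfl), mul_one]
        have hG' : epsi ((4 : ℕ) : ℤ) 0 * C * gP ((4 : ℕ) : ℤ) 0 = 2 * C := hG
        rw [hG'] at h1 hτC
        obtain ⟨g1, g2⟩ := cA_eq Q (c := c) (y := y)
        have h2 := comm (2 * C) (cntP 4 0 c yA) (cA Q c y) yA
          ((min_le_left _ _).trans hτC) hyA1 hyA2 h1 (by linarith) (by linarith)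
        have h3 : 2 * C / 2 = C := by ring
        rwa [h3] at h2
      · intro he
        exact absurd ho (Nat.not_odd_iff_even.2 he)

end Pool.Agent.V8H10.AH
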